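import Pool.Agent.NH77.MS.Key
import Pool.Agent.NH77.MS.Fin
import Pool.Agent.NH77.MS.Past
import Pool.Agent.NH77.MS.SpecIn
import Pool.Agent.NH77.MS.SpecPer
import Pool.Agent.NH77.MS.Branch
import Pool.Agent.NH77.MS.Kern
import Pool.Agent.NH77.MS.Step
import Pool.Agent.NH77.MS.Cover
import Pool.Agent.NH77.MS.Grow

/-!
# Gaps above the least limit point of the multiplicative spectrum of a Pisot number

For every Pisot number `α > 3` (a unit or not) the spectrum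
`L(α) = {limsup ‖ξ α ^ n‖ : ξ real}` has a least limit point `t₀ < 1/2`, and for every `ε > 0` some
nonempty open interval inside `[t₀, 1/2]` and `[t₀, t₀ + ε]` is disjoint from `L(α)`.
-/

namespace Pool.Agent.Results.MP_ae43c0_nt.GapAboveT0

open Filter Topology Polynomial

theorem result (α : ℝ) (h3 : 3 < α) (hint : IsIntegral ℤ α)
    (hconj : ∀ z : ℂ, aeval z (minpoly ℤ α) = 0 → z ≠ (α : ℂ) → ‖z‖ < 1) :
    ∃ t₀ : ℝ, IsLeast {t : ℝ | AccPt t (𝓟 {v : ℝ | ∃ ξ : ℝ,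
        v = limsup (fun n : ℕ => |ξ * α ^ n - round (ξ * α ^ n)|) atTop})} t₀ ∧ t₀ < 1 / 2 ∧
      ∀ ε : ℝ, 0 < ε → ∃ a b : ℝ, t₀ ≤ a ∧ a < b ∧ b ≤ 1 / 2 ∧ b ≤ t₀ + ε ∧
        ∀ x : ℝ, a < x → x < b →
          ¬ ∃ ξ : ℝ, x = limsup (fun n : ℕ => |ξ * α ^ n - round (ξ * α ^ n)|) atTop := by
  have hsol := NH77.MS.Sol.sol
  have hxx := NH77.MS.Sol.xx
  have hpast3 := NH77.MS.Sol.past3
  have hwin := NH77.MS.Sol.window
  have hgap := NH77.MS.Sol.gap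
  have hlang := NH77.MS.LangF.lang
  have hkey := NH77.MS.Key.key hsol hxx hpast3 hwin hgap NH77.MS.PastF.past NH77.MS.Branch.branch
  have hper := NH77.MS.SpecPer.specPer hsol hwin hpast3
  have hstep := NH77.MS.Step.step hsol hxx hwin hpast3 hgap hper
  have hcover := NH77.MS.Cover.cover hsol hxx hwin NH77.MS.SpecInF.specIn hlang
  obtain ⟨t₀, hleast, hhalf, hgaps⟩ :=
    NH77.MS.Fin.main' NH77.MS.Kern.kern hlang hkey hstep hcover NH77.MS.Grow.grow α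
      ⟨by linarith, hint, hconj⟩ h3
  refine ⟨t₀, hleast, hhalf, fun ε hε => ?_⟩
  obtain ⟨a, b, ha, hab, hb, hbε, hdis⟩ := hgaps ε hε
  refine ⟨a, b, ha, hab, hb, hbε, fun x hx1 hx2 hx => ?_⟩
  have : x ∈ Set.Ioo a b ∩ NH77.MS.Spec α := ⟨⟨hx1, hx2⟩, hx⟩
  rw [hdis] at this
  exact this

end Pool.Agent.Results.MP_ae43c0_nt.GapAboveT0
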